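import Pool.Agent.helper53.ORE.Spec

/-! Row `ore:C1`: a long root element from a commutator with a Siegel element. -/

set_option autoImplicit false

namespace Pool.Agent.ORE

open Module Pool.Agent.GS

private theorem C1_z {F V : Type} [Field F] [AddCommGroup V] [Module F V]
    (Q : QuadraticForm F V) (h2 : (2 : F) = 0) (u a w b : V) (hu : Q u = 0) (hw : Q w = 0)
    (hua : pb Q u a = 0) (hwb : pb Q w b = 0) (huw : pb Q u w = 0) (haw : pb Q a w = 0)
    (hub : pb Q u b = 0) (x : V) :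
    (sq Q w b * sq Q u a) x = x + pb Q x u • a + (pb Q x a + Q a * pb Q x u) • u +
      pb Q x w • b + (pb Q x b + pb Q a b * pb Q x u + Q b * pb Q x w) • w := by
  rw [Equiv.Perm.mul_apply, sq_apply h2 hu hua, sq_apply h2 hw hwb]
  simp only [map_add, LinearMap.add_apply, map_smul, LinearMap.smul_apply, smul_eq_mul,
    huw, haw, hub, mul_zero, add_zero]
  module

private theorem C1_zz {F V : Type} [Field F] [AddCommGroup V] [Module F V]
    (Q : QuadraticForm F V) (h2 : (2 : F) = 0) (u a w b : V) (hu : Q u = 0) (hw : Q w = 0)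
    (hua : pb Q u a = 0) (hwb : pb Q w b = 0) (huw : pb Q u w = 0) (haw : pb Q a w = 0)
    (hub : pb Q u b = 0) :
    (sq Q w b * sq Q u a) ^ 2 = sq Q u (pb Q a b • w) := by
  have hau : pb Q a u = 0 := by rw [pb_symm, hua]
  have hbw : pb Q b w = 0 := by rw [pb_symm, hwb]
  have hwu : pb Q w u = 0 := by rw [pb_symm, huw]
  have hwa : pb Q w a = 0 := by rw [pb_symm, haw]
  have hbu : pb Q b u = 0 := by rw [pb_symm, hub]
  have hba : pb Q b a = pb Q a b := pb_symm Q b a
  have h3 : pb Q u (pb Q a b • w) = 0 := by rw [map_smul, huw, smul_zero]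
  ext x
  rw [pow_two, Equiv.Perm.mul_apply, C1_z Q h2 u a w b hu hw hua hwb huw haw hub,
    C1_z Q h2 u a w b hu hw hua hwb huw haw hub, sq_apply h2 hu h3]
  simp only [map_add, LinearMap.add_apply, map_smul, LinearMap.smul_apply, smul_eq_mul,
    pb_self2 h2, hau, hbw, hwu, hwa, hbu, hba, hua, hwb, huw, haw, hub, Q_smul, hw, mul_zero,
    add_zero, zero_mul, zero_smul]
  have e : ∀ (α β γ δ q q' e : F), x + α • a + (β + q * α) • u + γ • b +
      (δ + e * α + q' * γ) • w + α • a + (β + γ * e + q * α) • u + γ • b +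
      (δ + α * e + e * α + q' * γ) • w = x + α • e • w + (e * γ) • u +
      (2 : F) • (α • a + (β + q * α) • u + γ • b + (δ + e * α + q' * γ) • w) := by
    intro α β γ δ q q' e
    module
  rw [e, h2, zero_smul, add_zero]

theorem C1 (sg : SGQ_stmt) (bl : BLW_stmt) : C1_stmt := by
  intro F V _ _ _ _ _ Q h2 hN h8 y hy u a hli hu huy hyua hua hyuA hne
  have hyu : Q (y u) = 0 := by rw [hy.2, hu]
  have hwb : pb Q (y u) (y a) = 0 := by rw [OQ_pb hy, hua]
  have haw : pb Q a (y u) = 0 := by rw [pb_symm, hyuA]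
  have hub : pb Q u (y a) = 0 := by
    have h3 := OQ_pb hy (y⁻¹ u) a
    rw [pinv] at h3
    rw [h3, hyua]
  have hzz := C1_zz Q h2 u a (y u) (y a) hu hyu hua hwb huy haw hub
  have hE : sq Q u a ∈ OmQ Q := sg Q h2 hN h8 u a hu hua
  have hz : y * sq Q u a * y⁻¹ * (sq Q u a)⁻¹ = sq Q (y u) (y a) * sq Q u a := by
    rw [sq_conj_mem h2 hy hu hua, sq_inv]
  have h4 : Gq Q y 2 (sq Q (y u) (y a) * sq Q u a) := by
    rw [← hz]
    exact Gq.comm hE
  have h5 : Lin F (sq Q (y u) (y a) * sq Q u a) :=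
    ((OQ Q).mul_mem (sq_mem Q (y u) (y a)) (sq_mem Q u a)).1
  have h6 := Gq.pow h4 h5 2
  rw [hzz] at h6
  refine bl Q h2 hN h8 y 2 u (pb Q a (y a) • y u) ?_ hu ?_ ?_ h6
  · rw [LinearIndependent.pair_iff] at hli ⊢
    intro s t hst
    rw [smul_smul] at hst
    obtain ⟨h7, h8'⟩ := hli s (t * pb Q a (y a)) hst
    exact ⟨h7, (mul_eq_zero.1 h8').resolve_right hne⟩
  · rw [Q_smul, hyu, mul_zero]
  · rw [map_smul, huy, smul_zero]

end Pool.Agent.ORE
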